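import Pool.Agent.Q223.LD.RG
import Pool.Agent.Q223.LD.Sharp

/-! Beilinson's conjecture for the base changes `C_F` of a curve `C` (or of any projective variety) over a
number field `K`, and divisibility of the local degrees of `F`. No continuation is presupposed. -/

set_option autoImplicit false

namespace Pool.Agent.Results.MP_0a9c3b_nt.LocalDegreeLaw

open NumberField IsDedekindDomain Polynomial Pool.Agent.Q5.RG Pool.Agent.Q5.VL
open Pool.Agent.W353.NF Pool.Agent.Q5.BR Pool.Agent.W401.Cheb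

/-- the regulator of `X_F` is an isomorphism, and for all choices of the bad Euler factors the `t`-th
power of `L(H^i(X_F), s)` has a meromorphic continuation to `Ω`; its order at `s = m` is `t` times
the dimension of motivic cohomology, and its leading coefficient a rational multiple of the `t`-th
power of the determinant of the regulator. -/
def BeilinsonPower {K : Type} [Field K] [NumberField K] {n : ℕ}
    (X : Set (MvPolynomial (Fin n) (𝓞 K))) (d i N : ℕ) (m : ℤ) (Ω : Set ℂ)
    (M : Spaces ℚ ℝ Gal(AlgebraicClosure K/K)) (F : Type) [Field F] [NumberField F] [Algebra K F]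
    (t : ℕ) : Prop :=
  (∃ p c, M.Reg F p c) ∧
    ∀ B : HeightOneSpectrum (𝓞 F) → ℚ[X], Sys X d i N m F B → M.Pow m Ω F B t

/-- `k` divides all local degrees `[F_v : ℚ_q]`, `v | q`, `q ∈ S` -/
def DividesLocal (k : ℕ) (S : Finset ℕ) (F : Type) [Field F] [NumberField F] : Prop :=
  ∀ q ∈ S, ∀ v : Ideal (𝓞 F), v.IsPrime → (q : 𝓞 F) ∈ v →
    k ∣ v.ramificationIdx ℤ * v.inertiaDeg ℤ

theorem result :
    -- (1) the law
    (∀ (K : Type) [Field K] [NumberField K] (n : ℕ) (X : Set (MvPolynomial (Fin n) (𝓞 K)))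
      (d i N : ℕ) (_ : i ≤ 2 * d) (m : ℤ) (Ω : Set ℂ) (_ : IsDom Ω (m : ℂ))
      (_ : ∀ (F : Type) [Field F] [NumberField F] [Algebra K F], ∃ B, Sys X d i N m F B)
      (M : Spaces ℚ ℝ Gal(AlgebraicClosure K/K)) (_ : M.Good)
      (S : Finset ℕ) (_ : ∀ q ∈ S, q.Prime) (D : ℕ) (_ : D ≠ 0),
      (∀ (F : Type) [Field F] [NumberField F] [Algebra K F], DividesLocal D S F →
        BeilinsonPower X d i N m Ω M F 1) →
      ∀ (F : Type) [Field F] [NumberField F] [Algebra K F] (g : ℕ), DividesLocal g S F →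
        BeilinsonPower X d i N m Ω M F (D / D.gcd g)) ∧
    -- (2) the exponent for relations
    ∀ (F : Type) [Field F] [NumberField F] (S : Finset ℕ) (_ : ∀ q ∈ S, q.Prime) (_ : S.Nonempty)
      (D : ℕ) (ι : Type) [Fintype ι] (Y : ι → Ext F) (a : ι → ℤ) (e : ℤ),
      (∀ σ : GK F, ∑ j, a j * (fixn F (Y j).F σ : ℤ) = e) → (∀ j, DividesLocal D S (Y j).F) →
      (D : ℤ) ∣ e * Module.finrank ℚ F := by
  refine ⟨fun K _ _ n X d i N hi m Ω hΩ hsys M hM S hS D hD h F _ _ _ g hg => ?_,
    fun F _ _ S hS hne D ι _ Y a e hrel h => ?_⟩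
  · exact Pool.Agent.Q223.LD.rg_power hi hΩ hsys hM hS hD
      (fun F' _ _ _ hF' => by
        obtain ⟨h1, h2⟩ := h F' hF'
        exact ⟨h1, h2⟩) F g hg
  · obtain ⟨q, hq⟩ := hne
    exact Pool.Agent.Q223.LD.sharp (hS q hq) Y a e hrel fun j => h j q hq

end Pool.Agent.Results.MP_0a9c3b_nt.LocalDegreeLaw
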